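import Pool.Agent.QSX.StmtsG

/-!
# Squad QSX, row ENT: entries of differences
-/

set_option autoImplicit false

namespace Pool.Agent.QSX.H22

open Matrix Finset

theorem mat_diff (D : Dat) (p p' : D.Pt) :
    (D.mat p)⁻¹ * D.mat p' =
      (ud (p.2 : Fin D.m → ℝ))⁻¹ * ((ue (p.1 : Matrix (Fin D.m) (Fin D.m) ℝ))⁻¹ *
        ue (p'.1 : Matrix (Fin D.m) (Fin D.m) ℝ)) * ud (p'.2 : Fin D.m → ℝ) := by
  unfold Dat.mat
  group

theorem ud_entry {m : ℕ} (c c' : Fin m → ℝ) (v : (Matrix (Fin m) (Fin m) ℝ)ˣ) (i l : Fin m) :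
    (((ud c)⁻¹ * v * ud c' : (Matrix (Fin m) (Fin m) ℝ)ˣ) : Matrix (Fin m) (Fin m) ℝ) i l =
      Real.exp (-c i) * (v : Matrix (Fin m) (Fin m) ℝ) i l * Real.exp (c' l) := by
  have h : (((ud c)⁻¹ * v * ud c' : (Matrix (Fin m) (Fin m) ℝ)ˣ) : Matrix (Fin m) (Fin m) ℝ) =
      diagonal (fun i => Real.exp (-c i)) * (v : Matrix (Fin m) (Fin m) ℝ) *
        diagonal (fun i => Real.exp (c' i)) := rfl
  rw [h, mul_diagonal, diagonal_mul]

theorem ent (hlen : LenStmt) : EntStmt := by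
  intro D p p' i l
  obtain ⟨-, -, -, hE, -, -⟩ := hlen D.m ((D.mat p)⁻¹ * D.mat p') 1
  have h := hE i l
  rw [mat_diff D p p'] at h
  rw [ud_entry] at h
  rw [← mat_diff D p p'] at h
  set v : ℝ := (((ue (p.1 : Matrix (Fin D.m) (Fin D.m) ℝ))⁻¹ *
    ue (p'.1 : Matrix (Fin D.m) (Fin D.m) ℝ) : (Matrix (Fin D.m) (Fin D.m) ℝ)ˣ) :
      Matrix (Fin D.m) (Fin D.m) ℝ) i l with hv
  rw [abs_mul, abs_mul, abs_of_pos (Real.exp_pos _), abs_of_pos (Real.exp_pos _)] at h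
  have h1 : |v| = Real.exp (-(p.2 : Fin D.m → ℝ) i) * |v| * Real.exp ((p'.2 : Fin D.m → ℝ) l) *
      (Real.exp ((p.2 : Fin D.m → ℝ) i) * Real.exp (-(p'.2 : Fin D.m → ℝ) l)) := by
    have e1 : Real.exp (-(p.2 : Fin D.m → ℝ) i) * Real.exp ((p.2 : Fin D.m → ℝ) i) = 1 := by
      rw [← Real.exp_add, neg_add_cancel, Real.exp_zero]
    have e2 : Real.exp ((p'.2 : Fin D.m → ℝ) l) * Real.exp (-(p'.2 : Fin D.m → ℝ) l) = 1 := by
      rw [← Real.exp_add, add_neg_cancel, Real.exp_zero]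
    calc |v| = |v| * (Real.exp (-(p.2 : Fin D.m → ℝ) i) * Real.exp ((p.2 : Fin D.m → ℝ) i)) *
          (Real.exp ((p'.2 : Fin D.m → ℝ) l) * Real.exp (-(p'.2 : Fin D.m → ℝ) l)) := by
          rw [e1, e2]; ring
      _ = _ := by ring
  rw [h1]
  have h2 : Real.exp (len ((D.mat p)⁻¹ * D.mat p') + (p.2 : Fin D.m → ℝ) i -
      (p'.2 : Fin D.m → ℝ) l) = Real.exp (len ((D.mat p)⁻¹ * D.mat p')) *
      (Real.exp ((p.2 : Fin D.m → ℝ) i) * Real.exp (-(p'.2 : Fin D.m → ℝ) l)) := by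
    rw [← Real.exp_add, ← Real.exp_add]; congr 1; ring
  rw [h2]
  exact mul_le_mul_of_nonneg_right h (mul_pos (Real.exp_pos _) (Real.exp_pos _)).le

end Pool.Agent.QSX.H22
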